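import Mathlib

/-!
# Periods of rank one Hodge structures over abelian fields: data and known facts
-/

namespace Pool.Agent.N522.GD

/-- `x ∼ y`: the quotient is algebraic (used for non-zero `x`, `y`). -/
def Sim (x y : ℂ) : Prop := IsAlgebraic ℚ (x / y)

/-- `∏_{0 < a < d} Γ(1 - a/d)^{ε(a u⁻¹)}` -/
noncomputable def GammaProd (d : ℕ) (ε : ZMod d → ℚ) (u : (ZMod d)ˣ) : ℝ :=
  ∏ a ∈ Finset.Ioo 0 d,
    Real.Gamma (1 - (a : ℝ) / (d : ℝ)) ^ ((ε ((a : ZMod d) * ((u⁻¹ : (ZMod d)ˣ) : ZMod d)) : ℚ) : ℝ)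

/-- `∑_{0 < a < d} ε(a) ⟨u a⟩` -/
def epsSum (d : ℕ) (ε : ZMod d → ℚ) (u : (ZMod d)ˣ) : ℚ :=
  ∑ a ∈ Finset.Ioo 0 d, ε (a : ZMod d) * (((u : ZMod d) * (a : ZMod d)).val : ℚ)

/-- Abelian number fields and admissible triples. -/
structure Theory where
  /-- abelian number fields -/
  Fld : Type
  /-- the conductor `d` -/
  cond : Fld → ℕ
  /-- the subgroup `Gal(ℚ(μ_d)/F)` of `(ℤ/d)ˣ` -/
  fix : ∀ F : Fld, Subgroup (ZMod (cond F))ˣ
  /-- admissible triples with field `F` -/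
  Triple : Fld → Type
  /-- the weight `m` -/
  wt : ∀ {F : Fld}, Triple F → ℕ
  /-- `p(λ)` -/
  p : ∀ {F : Fld}, Triple F → (ZMod (cond F))ˣ → ℕ
  /-- a representative of `P_λ(H)` -/
  P : ∀ {F : Fld}, Triple F → (ZMod (cond F))ˣ → ℂ

variable {D : Theory}

/-- `ε` is as in the question for the triple `H`. -/
def IsEps {F : D.Fld} (H : D.Triple F) (ε : ZMod (D.cond F) → ℚ) : Prop :=
  ∀ u : (ZMod (D.cond F))ˣ, (D.cond F : ℚ) * (D.p H u : ℚ) = epsSum (D.cond F) ε u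

/-- the relation of Q1 for the triple `H` -/
def Formula {F : D.Fld} (H : D.Triple F) : Prop :=
  ∀ ε : ZMod (D.cond F) → ℚ, IsEps H ε → ∀ u : (ZMod (D.cond F))ˣ,
    Sim (D.P H u) (GammaProd (D.cond F) ε u : ℂ)

/-- Q1 for the triples with field `F` -/
def Q1For (F : D.Fld) : Prop := ∀ H : D.Triple F, Formula H

/-- Triples with field `F` and the same Hodge type have the same periods. -/
def SamePeriods (F : D.Fld) : Prop :=
  ∀ H H' : D.Triple F, D.p H = D.p H' → ∀ u : (ZMod (D.cond F))ˣ, Sim (D.P H u) (D.P H' u)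

/-- `φ` is a CM type of `F`, as a function on `(ℤ/d)ˣ`. -/
def IsCMType (F : D.Fld) (φ : (ZMod (D.cond F))ˣ → ℕ) : Prop :=
  (∀ u, φ u + φ (-u) = 1) ∧ ∀ s ∈ D.fix F, ∀ u, φ (s * u) = φ u

/-- Known facts. -/
structure Facts (D : Theory) : Prop where
  cond_pos : ∀ F : D.Fld, 0 < D.cond F
  p_add : ∀ (F : D.Fld) (H : D.Triple F) (u : (ZMod (D.cond F))ˣ), D.p H u + D.p H (-u) = D.wt H
  p_inv : ∀ (F : D.Fld) (H : D.Triple F), ∀ s ∈ D.fix F, ∀ u : (ZMod (D.cond F))ˣ,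
    D.p H (s * u) = D.p H u
  P_ne : ∀ (F : D.Fld) (H : D.Triple F) (u : (ZMod (D.cond F))ˣ), D.P H u ≠ 0
  P_inv : ∀ (F : D.Fld) (H : D.Triple F), ∀ s ∈ D.fix F, ∀ u : (ZMod (D.cond F))ˣ,
    Sim (D.P H (s * u)) (D.P H u)
  /-- polarisation -/
  polar : ∀ (F : D.Fld) (H : D.Triple F) (u : (ZMod (D.cond F))ˣ),
    Sim (D.P H u * D.P H (-u)) ((2 * Real.pi * Complex.I : ℂ) ^ D.wt H)
  /-- `H ⊗_F H'` in the cohomology of a product -/
  tensor : ∀ (F : D.Fld) (H H' : D.Triple F), ∃ H'' : D.Triple F, D.wt H'' = D.wt H + D.wt H' ∧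
    (∀ u, D.p H'' u = D.p H u + D.p H' u) ∧ ∀ u, Sim (D.P H'' u) (D.P H u * D.P H' u)
  /-- weight zero -/
  zero : ∀ (F : D.Fld) (H : D.Triple F), D.wt H = 0 → ∀ u, Sim (D.P H u) 1
  /-- Anderson: every CM type comes from an abelian variety, and for these the relation holds -/
  anderson : ∀ (F : D.Fld) (φ : (ZMod (D.cond F))ˣ → ℕ), IsCMType F φ →
    ∃ H : D.Triple F, D.wt H = 1 ∧ D.p H = φ ∧ Formula H
  /-- existence of `ε` -/
  eps : ∀ (F : D.Fld) (H : D.Triple F), 1 < D.cond F → ∃ ε, IsEps H ε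
  /-- Koblitz–Ogus -/
  koblitzOgus : ∀ (d : ℕ) (ε : ZMod d → ℚ), 0 < d → (∀ u, epsSum d ε u = 0) →
    ∀ u, IsAlgebraic ℚ (GammaProd d ε u : ℂ)
  /-- the reflection formula -/
  reflection : ∀ (d : ℕ) (ε : ZMod d → ℚ) (m : ℕ), 0 < d → (∀ u, epsSum d ε u +
    epsSum d ε (-u) = (d : ℚ) * (m : ℚ)) → ∀ u,
      Sim ((GammaProd d ε u : ℂ) * (GammaProd d ε (-u) : ℂ)) ((2 * Real.pi * Complex.I : ℂ) ^ m)

end Pool.Agent.N522.GD
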