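import Pool.Agent.N522.GD.Defs

/-!
# Q1 is equivalent to the invariance of the periods
-/

namespace Pool.Agent.N522.GD

variable {D : Theory}

theorem Sim.symm {x y : ℂ} (h : Sim x y) : Sim y x := by
  unfold Sim at *
  have := h.inv
  rwa [inv_div] at this

theorem Sim.trans {x y z : ℂ} (hy : y ≠ 0) (h₁ : Sim x y) (h₂ : Sim y z) : Sim x z := by
  unfold Sim at *
  have := h₁.mul h₂
  rwa [div_mul_div_cancel₀ hy] at this

theorem Sim.mul {x y x' y' : ℂ} (h₁ : Sim x y) (h₂ : Sim x' y') : Sim (x * x') (y * y') := by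
  unfold Sim at *
  have := IsAlgebraic.mul h₁ h₂
  rwa [div_mul_div_comm] at this

theorem Sim.of_sq {x y : ℂ} (h : Sim (x * x) (y * y)) : Sim x y := by
  unfold Sim at *
  rw [← div_mul_div_comm, ← sq] at h
  exact IsAlgebraic.of_pow (by norm_num : 0 < 2) h

theorem gammaProd_pos (d : ℕ) (ε : ZMod d → ℚ) (u : (ZMod d)ˣ) : 0 < GammaProd d ε u := by
  unfold GammaProd
  apply Finset.prod_pos
  intro a ha
  rw [Finset.mem_Ioo] at ha
  apply Real.rpow_pos_of_pos
  apply Real.Gamma_pos_of_pos
  have hd : (0 : ℝ) < d := by exact_mod_cast (by omega : 0 < d)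
  rw [sub_pos, div_lt_one hd]
  exact_mod_cast ha.2

theorem gammaProd_ne (d : ℕ) (ε : ZMod d → ℚ) (u : (ZMod d)ˣ) : (GammaProd d ε u : ℂ) ≠ 0 := by
  exact_mod_cast (gammaProd_pos d ε u).ne'

theorem gammaProd_add (d : ℕ) (ε ε' : ZMod d → ℚ) (u : (ZMod d)ˣ) :
    GammaProd d (fun a => ε a + ε' a) u = GammaProd d ε u * GammaProd d ε' u := by
  unfold GammaProd
  rw [← Finset.prod_mul_distrib]
  apply Finset.prod_congr rfl
  intro a ha
  rw [Finset.mem_Ioo] at ha
  rw [Rat.cast_add, Real.rpow_add]
  apply Real.Gamma_pos_of_pos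
  have hd : (0 : ℝ) < d := by exact_mod_cast (by omega : 0 < d)
  rw [sub_pos, div_lt_one hd]
  exact_mod_cast ha.2

theorem epsSum_add (d : ℕ) (ε ε' : ZMod d → ℚ) (u : (ZMod d)ˣ) :
    epsSum d (fun a => ε a + ε' a) u = epsSum d ε u + epsSum d ε' u := by
  unfold epsSum
  rw [← Finset.sum_add_distrib]
  exact Finset.sum_congr rfl fun a _ => add_mul _ _ _

theorem epsSum_sub (d : ℕ) (ε ε' : ZMod d → ℚ) (u : (ZMod d)ˣ) :
    epsSum d (fun a => ε a - ε' a) u = epsSum d ε u - epsSum d ε' u := by
  unfold epsSum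
  rw [← Finset.sum_sub_distrib]
  exact Finset.sum_congr rfl fun a _ => sub_mul _ _ _

/-- Two functions `ε` with the same sums have the same gamma products up to algebraic factors. -/
theorem sim_of_epsSum (F : Facts D) (d : ℕ) (hd : 0 < d) (ε ε' : ZMod d → ℚ)
    (h : ∀ u, epsSum d ε u = epsSum d ε' u) (u : (ZMod d)ˣ) :
    Sim (GammaProd d ε u : ℂ) (GammaProd d ε' u : ℂ) := by
  have h0 := F.koblitzOgus d (fun a => ε a - ε' a) hd
    (fun u => by rw [epsSum_sub, h u, sub_self]) u
  have h1 : GammaProd d ε u = GammaProd d (fun a => ε a - ε' a) u * GammaProd d ε' u := by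
    rw [← gammaProd_add]
    congr 1
    funext a
    ring
  unfold Sim
  rw [h1, Complex.ofReal_mul, mul_div_assoc, div_self (gammaProd_ne d ε' u), mul_one]
  exact h0

/-- The relation of Q1 holds if it holds for one `ε`. -/
theorem formula_of_one (F : Facts D) {K : D.Fld} (H : D.Triple K) (ε : ZMod (D.cond K) → ℚ)
    (hε : IsEps H ε) (h : ∀ u, Sim (D.P H u) (GammaProd (D.cond K) ε u : ℂ)) : Formula H := by
  intro ε' hε' u
  refine (h u).trans (gammaProd_ne _ _ _) ?_
  exact sim_of_epsSum F _ (F.cond_pos K) ε ε' (fun v => by rw [← hε v, ← hε' v]) u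

/-- Totally real fields. -/
theorem formula_real (F : Facts D) (K : D.Fld) (hK : (-1 : (ZMod (D.cond K))ˣ) ∈ D.fix K)
    (H : D.Triple K) : Formula H := by
  intro ε hε u
  have hneg : ∀ v : (ZMod (D.cond K))ˣ, -v = -1 * v := fun v => by simp
  have hp : ∀ v, D.p H (-v) = D.p H v := fun v => by
    rw [hneg v]; exact F.p_inv K H (-1) hK v
  have hP : Sim (D.P H (-u)) (D.P H u) := by
    rw [hneg u]; exact F.P_inv K H (-1) hK u
  have h1 : Sim (D.P H u * D.P H u) ((2 * Real.pi * Complex.I : ℂ) ^ D.wt H) := by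
    refine Sim.trans (mul_ne_zero (F.P_ne K H u) (F.P_ne K H (-u))) ?_ (F.polar K H u)
    refine Sim.mul ?_ hP.symm
    unfold Sim
    rw [div_self (F.P_ne K H u)]
    exact isAlgebraic_one
  have h2 : Sim ((GammaProd (D.cond K) ε u : ℂ) * (GammaProd (D.cond K) ε (-u) : ℂ))
      ((2 * Real.pi * Complex.I : ℂ) ^ D.wt H) := by
    refine F.reflection _ ε _ (F.cond_pos K) (fun v => ?_) u
    rw [← hε v, ← hε (-v), ← mul_add, ← Nat.cast_add, F.p_add K H v]
  -- the gamma products at `u` and `-u` agree
  have h3 : Sim (GammaProd (D.cond K) ε u : ℂ) (GammaProd (D.cond K) ε (-u) : ℂ) := by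
    have hsh : GammaProd (D.cond K) ε (-u) = GammaProd (D.cond K) (fun a => ε (-a)) u := by
      unfold GammaProd
      apply Finset.prod_congr rfl
      intro a _
      congr 3
      rw [show ((-u)⁻¹ : (ZMod (D.cond K))ˣ) = -(u⁻¹) from inv_neg]
      simp
    rw [hsh]
    refine sim_of_epsSum F _ (F.cond_pos K) _ _ (fun v => ?_) u
    have hv : epsSum (D.cond K) (fun a => ε (-a)) v = epsSum (D.cond K) ε (-v) := by
      unfold epsSum
      refine Finset.sum_bij (fun a _ => D.cond K - a) ?_ ?_ ?_ ?_
      · intro a ha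
        rw [Finset.mem_Ioo] at *
        omega
      · intro a ha b hb hab
        rw [Finset.mem_Ioo] at *
        omega
      · intro b hb
        rw [Finset.mem_Ioo] at *
        exact ⟨D.cond K - b, by rw [Finset.mem_Ioo]; omega, by omega⟩
      · intro a ha
        rw [Finset.mem_Ioo] at ha
        have hc : ((D.cond K - a : ℕ) : ZMod (D.cond K)) = -(a : ZMod (D.cond K)) := by
          rw [Nat.cast_sub ha.2.le]
          simp
        rw [hc]
        congr 3
        simp
    rw [hv, ← hε v, ← hε (-v), hp v]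
  apply Sim.of_sq
  refine h1.trans ?_ (Sim.symm ?_)
  · apply pow_ne_zero
    simp [Real.pi_ne_zero]
  refine Sim.trans (mul_ne_zero (gammaProd_ne _ _ _) (gammaProd_ne _ _ _)) ?_ h2
  refine Sim.mul ?_ h3
  unfold Sim
  rw [div_self (gammaProd_ne _ _ _)]
  exact isAlgebraic_one

/-- A CM type exists if complex conjugation is not trivial on the field. -/
theorem exists_cmType (K : D.Fld) (hK : (-1 : (ZMod (D.cond K))ˣ) ∉ D.fix K) :
    ∃ φ : (ZMod (D.cond K))ˣ → ℕ, IsCMType K φ := by
  classical
  let r : (ZMod (D.cond K))ˣ ⧸ D.fix K → (ZMod (D.cond K))ˣ ⧸ D.fix K → Prop :=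
    WellOrderingRel
  have hne : ∀ u : (ZMod (D.cond K))ˣ,
      (QuotientGroup.mk u : (ZMod (D.cond K))ˣ ⧸ D.fix K) ≠ QuotientGroup.mk (-u) := by
    intro u h
    rw [QuotientGroup.eq] at h
    apply hK
    convert h using 1
    rw [mul_neg, inv_mul_cancel]
  refine ⟨fun u => if r (QuotientGroup.mk u) (QuotientGroup.mk (-u)) then 1 else 0, ?_, ?_⟩
  · intro u
    have htri := trichotomous_of r (QuotientGroup.mk u) (QuotientGroup.mk (-u))
    have hasym := asymm_of r (a := QuotientGroup.mk u) (b := QuotientGroup.mk (-u))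
    simp only [neg_neg]
    rcases htri with h | h | h
    · rw [if_pos h, if_neg (hasym h)]
    · exact absurd h (hne u)
    · rw [if_pos h, if_neg (fun h' => hasym h' h)]
  · intro s hs u
    have h1 : (QuotientGroup.mk (s * u) : (ZMod (D.cond K))ˣ ⧸ D.fix K) = QuotientGroup.mk u := by
      rw [QuotientGroup.eq, mul_inv_rev, mul_assoc, mul_comm s⁻¹ u, ← mul_assoc,
        inv_mul_cancel, one_mul]
      exact (D.fix K).inv_mem hs
    have h2 : (QuotientGroup.mk (-(s * u)) : (ZMod (D.cond K))ˣ ⧸ D.fix K) =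
        QuotientGroup.mk (-u) := by
      rw [← mul_neg, QuotientGroup.eq, mul_inv_rev, mul_assoc, mul_comm s⁻¹ (-u), ← mul_assoc,
        inv_mul_cancel, one_mul]
      exact (D.fix K).inv_mem hs
    simp only [h1, h2]

/-- Every Hodge type is realised by a triple for which the relation of Q1 holds. -/
theorem exists_triple (F : Facts D) (K : D.Fld) (hK : (-1 : (ZMod (D.cond K))ˣ) ∉ D.fix K)
    (m : ℕ) : ∀ q : (ZMod (D.cond K))ˣ → ℕ, (∀ u, q u + q (-u) = m + 1) →
      (∀ s ∈ D.fix K, ∀ u, q (s * u) = q u) →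
      ∃ H : D.Triple K, D.wt H = m + 1 ∧ D.p H = q ∧ Formula H := by
  have hcond : 1 < D.cond K := by
    rcases Nat.lt_or_ge 1 (D.cond K) with h | h
    · exact h
    · have h1 : D.cond K = 1 := le_antisymm h (F.cond_pos K)
      exfalso
      apply hK
      have : (-1 : (ZMod (D.cond K))ˣ) = 1 := by
        apply Units.ext
        have : Subsingleton (ZMod (D.cond K)) := by
          rw [h1]; exact (inferInstance : Subsingleton (Fin 1))
        exact Subsingleton.elim _ _
      rw [this]
      exact (D.fix K).one_mem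
  induction m with
  | zero =>
    intro q hq hs
    obtain ⟨H, h1, h2, h3⟩ := F.anderson K q ⟨by simpa using hq, hs⟩
    exact ⟨H, by simpa using h1, h2, h3⟩
  | succ m ih =>
    intro q hq hs
    obtain ⟨φ₀, hφ₀⟩ := exists_cmType K hK
    let φ : (ZMod (D.cond K))ˣ → ℕ := fun u =>
      if q (-u) < q u then 1 else if q u < q (-u) then 0 else φ₀ u
    have hφ : IsCMType K φ := by
      constructor
      · intro u
        have := hφ₀.1 u
        simp only [φ, neg_neg]
        split_ifs <;> omega
      · intro s hs' u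
        have h1 := hs s hs' u
        have h2 : q (-(s * u)) = q (-u) := by rw [← mul_neg]; exact hs s hs' (-u)
        have h3 := hφ₀.2 s hs' u
        simp only [φ, h1, h2, h3]
    have hle : ∀ u, φ u ≤ q u := by
      intro u
      have h1 := hφ₀.1 u
      have h2 := hq u
      simp only [φ]
      split_ifs <;> omega
    obtain ⟨H', hw', hp', hF'⟩ := ih (fun u => q u - φ u)
      (fun u => by
        have h1 := hφ.1 u
        have h2 := hq u
        have h3 := hle u
        have h4 := hle (-u)
        omega)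
      (fun s hs' u => by simp only [hs s hs' u, hφ.2 s hs' u])
    obtain ⟨H'', hw'', hp'', hF''⟩ := F.anderson K φ hφ
    obtain ⟨H, hw, hp, hP⟩ := F.tensor K H' H''
    refine ⟨H, by omega, ?_, ?_⟩
    · funext u
      rw [hp u, hp', hp'']
      exact Nat.sub_add_cancel (hle u)
    · obtain ⟨ε', hε'⟩ := F.eps K H' hcond
      obtain ⟨ε'', hε''⟩ := F.eps K H'' hcond
      refine formula_of_one F H (fun a => ε' a + ε'' a) ?_ ?_
      · intro u
        rw [epsSum_add, ← hε' u, ← hε'' u, ← mul_add, hp u, Nat.cast_add]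
      · intro u
        rw [gammaProd_add, Complex.ofReal_mul]
        refine (hP u).trans (mul_ne_zero (F.P_ne K H' u) (F.P_ne K H'' u)) ?_
        exact (hF' ε' hε' u).mul (hF'' ε'' hε'' u)

theorem q1_iff (F : Facts D) (K : D.Fld) : Q1For K ↔ SamePeriods K := by
  by_cases hK : (-1 : (ZMod (D.cond K))ˣ) ∈ D.fix K
  · refine ⟨fun _ H H' hp u => ?_, fun _ H => formula_real F K hK H⟩
    have hneg : ∀ v : (ZMod (D.cond K))ˣ, -v = -1 * v := fun v => by simp
    have hsq : ∀ G : D.Triple K,
        Sim (D.P G u * D.P G u) ((2 * Real.pi * Complex.I : ℂ) ^ D.wt G) := by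
      intro G
      refine Sim.trans (mul_ne_zero (F.P_ne K G u) (F.P_ne K G (-u))) ?_ (F.polar K G u)
      refine Sim.mul ?_ ?_
      · unfold Sim
        rw [div_self (F.P_ne K G u)]
        exact isAlgebraic_one
      · rw [hneg u]
        exact (F.P_inv K G (-1) hK u).symm
    have hw : D.wt H = D.wt H' := by
      rw [← F.p_add K H u, ← F.p_add K H' u, hp]
    apply Sim.of_sq
    refine (hsq H).trans ?_ ?_
    · apply pow_ne_zero
      simp [Real.pi_ne_zero]
    · rw [hw]
      exact (hsq H').symm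
  · constructor
    · intro h H H' hp u
      have hcond : 1 < D.cond K := by
        rcases Nat.lt_or_ge 1 (D.cond K) with h | h
        · exact h
        · have h1 : D.cond K = 1 := le_antisymm h (F.cond_pos K)
          exfalso
          apply hK
          have : (-1 : (ZMod (D.cond K))ˣ) = 1 := by
            apply Units.ext
            have : Subsingleton (ZMod (D.cond K)) := by
              rw [h1]; exact (inferInstance : Subsingleton (Fin 1))
            exact Subsingleton.elim _ _
          rw [this]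
          exact (D.fix K).one_mem
      obtain ⟨ε, hε⟩ := F.eps K H hcond
      have hε' : IsEps H' ε := fun v => by rw [← hp]; exact hε v
      exact (h H ε hε u).trans (gammaProd_ne _ _ _) (h H' ε hε' u).symm
    · intro h H ε hε u
      rcases Nat.eq_zero_or_pos (D.wt H) with hw | hw
      · -- weight zero
        have hp0 : ∀ v, D.p H v = 0 := fun v => by
          have := F.p_add K H v
          omega
        refine (F.zero K H hw u).trans one_ne_zero ?_
        have h0 := F.koblitzOgus (D.cond K) ε (F.cond_pos K)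
          (fun v => by rw [← hε v, hp0 v]; simp) u
        apply Sim.symm
        unfold Sim
        rw [div_one]
        exact h0
      · obtain ⟨m, hm⟩ : ∃ m, D.wt H = m + 1 := ⟨D.wt H - 1, by omega⟩
        obtain ⟨H', hw', hp', hF'⟩ := exists_triple F K hK m (D.p H)
          (fun v => by rw [F.p_add K H v, hm]) (F.p_inv K H)
        have hε' : IsEps H' ε := fun v => by rw [hp']; exact hε v
        exact (h H H' hp'.symm u).trans (F.P_ne K H' u) (hF' ε hε' u)

end Pool.Agent.N522.GD
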